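import Mathlib

/-! Strict equilibria in all induced subgames do not imply generalized weak acyclicity. -/

namespace Pool.Agent.Results.MP_f1fe0b_lc.ThreeByThree

section Defs

variable {I : Type*} [DecidableEq I] {A : I → Type*}

/-- the set of best responses of player `i` to the actions of the others in `a` -/
def best (r : I → (∀ i, A i) → ℝ) (i : I) (a : ∀ i, A i) : Set (A i) :=
  {b | ∀ c, r i (Function.update a i c) ≤ r i (Function.update a i b)}

/-- player `i` is satisfied at `a` -/
def Satisfied (r : I → (∀ i, A i) → ℝ) (i : I) (a : ∀ i, A i) : Prop := a i ∈ best r i a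

/-- pure Nash equilibrium -/
def IsNash (r : I → (∀ i, A i) → ℝ) (a : ∀ i, A i) : Prop := ∀ i, Satisfied r i a

/-- every induced subgame (players `N`, the others frozen at their actions in `a`) has a strict pure
Nash equilibrium -/
def SubgamesStrict (r : I → (∀ i, A i) → ℝ) : Prop :=
  ∀ (N : Set I) (a : ∀ i, A i), ∃ a' : ∀ i, A i, (∀ j, j ∉ N → a' j = a j) ∧
    ∀ i ∈ N, best r i a' = {a' i}

/-- edges of the satisficing graph: satisfied players keep their actions -/
def Edge (r : I → (∀ i, A i) → ℝ) (a a' : ∀ i, A i) : Prop := ∀ i, Satisfied r i a → a' i = a i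

/-- generalized weak acyclicity -/
def GeneralizedWeaklyAcyclic (r : I → (∀ i, A i) → ℝ) : Prop :=
  ∀ a, ∃ a', Relation.ReflTransGen (Edge r) a a' ∧ IsNash r a'

end Defs

/-- the best responses in the example: `tab[i][9 x + 3 y + z]` for the profile `(x, y, z)` (the entry
does not depend on the coordinate `i`) -/
def tab : List (List ℕ) :=
  [[0, 1, 2, 1, 1, 1, 2, 2, 2, 0, 1, 2, 1, 1, 1, 2, 2, 2, 0, 1, 2, 1, 1, 1, 2, 2, 2],
   [0, 2, 1, 0, 2, 1, 0, 2, 1, 1, 2, 1, 1, 2, 1, 1, 2, 1, 2, 2, 1, 2, 2, 1, 2, 2, 1],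
   [0, 0, 0, 2, 2, 2, 1, 1, 1, 1, 1, 1, 1, 1, 1, 1, 1, 1, 2, 2, 2, 2, 2, 2, 2, 2, 2]]

/-- rewards 0 and 1 -/
def R (i : Fin 3) (a : Fin 3 → Fin 3) : ℕ :=
  if (a i).1 = (tab.getD i.1 []).getD (9 * (a 0).1 + 3 * (a 1).1 + (a 2).1) 0 then 1 else 0

/-- decidable version of the best responses -/
def bestB (i : Fin 3) (a : Fin 3 → Fin 3) (b : Fin 3) : Bool :=
  decide (∀ c : Fin 3, R i (Function.update a i c) ≤ R i (Function.update a i b))

/-- rewards of the example -/
def r (i : Fin 3) (a : Fin 3 → Fin 3) : ℝ := R i a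

theorem mem_best (i : Fin 3) (a : Fin 3 → Fin 3) (b : Fin 3) :
    b ∈ best r i a ↔ bestB i a b = true := by
  unfold best bestB r
  simp only [Nat.cast_le, Set.mem_ofPred_eq, decide_eq_true_eq]

/-- the closed set without equilibria -/
def inS (a : Fin 3 → Fin 3) : Bool :=
  [5, 7, 10, 12, 13, 14, 16, 20, 23, 24, 25, 26].contains (9 * (a 0).1 + 3 * (a 1).1 + (a 2).1)

/-- A three player game with three actions for each player in which every induced subgame has a
strict pure Nash equilibrium, but which is not generalized weakly acyclic. -/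
theorem result : ∃ r : Fin 3 → (Fin 3 → Fin 3) → ℝ,
    SubgamesStrict r ∧ ¬ GeneralizedWeaklyAcyclic r := by
  refine ⟨r, ?_, ?_⟩
  · intro N a
    classical
    have h : ∀ (N : Finset (Fin 3)) (a : Fin 3 → Fin 3), ∃ a' : Fin 3 → Fin 3,
        (∀ j, j ∉ N → a' j = a j) ∧ ∀ i ∈ N, ∀ b, bestB i a' b = decide (b = a' i) := by
      decide +kernel
    obtain ⟨a', h1, h2⟩ := h (Finset.univ.filter (fun i => i ∈ N)) a
    refine ⟨a', ?_, ?_⟩
    · intro j hj
      exact h1 j (by simpa using hj)
    · intro i hi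
      ext b
      rw [mem_best, h2 i (by simpa using hi) b, decide_eq_true_eq, Set.mem_singleton_iff]
  · intro hg
    obtain ⟨a', h1, h2⟩ := hg ![2, 2, 2]
    have hS : ∀ a b : Fin 3 → Fin 3, inS a = true →
        (∀ i, bestB i a (a i) = true → b i = a i) → inS b = true := by decide +kernel
    have hN : ∀ a : Fin 3 → Fin 3, inS a = true → ∃ i, bestB i a (a i) = false := by
      decide +kernel
    have h4 : ∀ x, Relation.ReflTransGen (Edge r) ![2, 2, 2] x → inS x = true := by
      intro x hx
      induction hx with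
      | refl => decide +kernel
      | tail _ hab ih => exact hS _ _ ih (fun i hi => hab i ((mem_best i _ _).2 hi))
    have h3 : inS a' = true := h4 a' h1
    obtain ⟨i, hi⟩ := hN a' h3
    have := (mem_best i a' (a' i)).1 (h2 i)
    rw [hi] at this
    exact absurd this (by decide)

end Pool.Agent.Results.MP_f1fe0b_lc.ThreeByThree
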